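import Mathlib

/-!
# Systems of equations over a group and single equations over its free product with `ℤ`

For a group `G = ⟨X | R⟩` let `G' = ⟨X, a | R⟩ = G * ⟨a⟩`.  A finite system `w_1 = 1, …, w_k = 1` of
equations over `G` is solvable in `G` if and only if the single equation
`w_1 a w_1⁻¹ ⋯ w_k a w_k⁻¹ = a ^ k` is solvable in `G'`.
-/

set_option autoImplicit false

namespace Pool.Agent.R387.OV

/-- words in the letters `x_0^{±1}, …, x_{n-1}^{±1}` (constants) and `y_0^{±1}, …, y_{m-1}^{±1}`
(unknowns) -/
abbrev Wd (n m : ℕ) := List ((Fin n ⊕ Fin m) × Bool)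

/-- the value of the word `w` in the group `⟨x_0, …, x_{n-1} | R⟩` if the unknowns are replaced by
the elements `g_0, …, g_{m-1}` -/
def value {n m : ℕ} (R : Set (FreeGroup (Fin n))) (g : Fin m → PresentedGroup R) (w : Wd n m) :
    PresentedGroup R :=
  FreeGroup.lift (Sum.elim (fun i => PresentedGroup.of i) g) (FreeGroup.mk w)

/-- a letter over `n` constants as a letter over `n + 1` constants -/
def lft {n m : ℕ} (p : (Fin n ⊕ Fin m) × Bool) : (Fin (n + 1) ⊕ Fin m) × Bool :=
  (Sum.map Fin.castSucc id p.1, p.2)

/-- the word `w a w⁻¹`, where `a = x_n` is the new constant -/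
def conjW {n m : ℕ} (w : Wd n m) : Wd (n + 1) m :=
  w.map lft ++ (Sum.inl (Fin.last n), true) :: FreeGroup.invRev (w.map lft)

/-- the word `w_1 a w_1⁻¹ ⋯ w_k a w_k⁻¹ a ^ (-k)`, where `a = x_n` is the new constant -/
def red {n m : ℕ} (l : List (Wd n m)) : Wd (n + 1) m :=
  l.flatMap conjW ++ l.map (fun _ => (Sum.inl (Fin.last n), false))

/-- the relators `R` as relators in one more generator, which they do not involve -/
def ext {n : ℕ} (R : Set (FreeGroup (Fin n))) : Set (FreeGroup (Fin (n + 1))) :=
  FreeGroup.map Fin.castSucc '' R

section val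

variable {A G : Type*} [Group G] (f : A → G)

theorem lift_append (u v : List (A × Bool)) :
    FreeGroup.lift f (FreeGroup.mk (u ++ v)) =
      FreeGroup.lift f (FreeGroup.mk u) * FreeGroup.lift f (FreeGroup.mk v) := by
  rw [← FreeGroup.mul_mk, _root_.map_mul]

theorem lift_invRev (u : List (A × Bool)) :
    FreeGroup.lift f (FreeGroup.mk (FreeGroup.invRev u)) =
      (FreeGroup.lift f (FreeGroup.mk u))⁻¹ := by
  rw [← FreeGroup.inv_mk, _root_.map_inv]

theorem lift_cons (p : A × Bool) (v : List (A × Bool)) :
    FreeGroup.lift f (FreeGroup.mk (p :: v)) =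
      cond p.2 (f p.1) (f p.1)⁻¹ * FreeGroup.lift f (FreeGroup.mk v) := by
  rw [FreeGroup.lift_mk, FreeGroup.lift_mk, List.map_cons, List.prod_cons]

theorem lift_nil : FreeGroup.lift f (FreeGroup.mk []) = 1 := by
  rw [FreeGroup.lift_mk]; rfl

end val

theorem lift_red {n m : ℕ} {G : Type*} [Group G] (f : Fin (n + 1) ⊕ Fin m → G)
    (l : List (Wd n m)) :
    FreeGroup.lift f (FreeGroup.mk (red l)) =
      (l.map fun w => FreeGroup.lift f (FreeGroup.mk (w.map lft)) * f (Sum.inl (Fin.last n)) *
        (FreeGroup.lift f (FreeGroup.mk (w.map lft)))⁻¹).prod *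
        ((f (Sum.inl (Fin.last n))) ^ l.length)⁻¹ := by
  rw [red, lift_append]
  congr 1
  · induction l with
    | nil => exact lift_nil f
    | cons w l ih =>
      rw [List.flatMap_cons, lift_append, ih, List.map_cons, List.prod_cons]
      congr 1
      rw [conjW, lift_append, lift_cons, lift_invRev]
      simp only [cond_true]
      group
  · induction l with
    | nil => rw [List.map_nil, lift_nil]; simp
    | cons w l ih =>
      rw [List.map_cons, lift_cons, ih, List.length_cons, pow_succ, mul_inv_rev]
      simp only [cond_false]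

section maps

variable {n : ℕ} (R : Set (FreeGroup (Fin n)))

theorem lift_comp_map {G : Type*} [Group G] (f : Fin (n + 1) → G) (x : FreeGroup (Fin n)) :
    FreeGroup.lift f (FreeGroup.map Fin.castSucc x) =
      FreeGroup.lift (fun i => f (Fin.castSucc i)) x := by
  have h : (FreeGroup.lift f).comp (FreeGroup.map Fin.castSucc) =
      FreeGroup.lift (fun i => f (Fin.castSucc i)) := by
    apply FreeGroup.ext_hom
    intro i
    simp
  exact DFunLike.congr_fun h x

theorem lift_of_mk (x : FreeGroup (Fin n)) :
    FreeGroup.lift (fun i => (PresentedGroup.of i : PresentedGroup R)) x =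
      PresentedGroup.mk R x := by
  have h : FreeGroup.lift (fun i => (PresentedGroup.of i : PresentedGroup R)) =
      PresentedGroup.mk R := by
    apply FreeGroup.ext_hom
    intro i
    simp [PresentedGroup.of]
  exact DFunLike.congr_fun h x

/-- a homomorphism on `G * ⟨a⟩` from a homomorphism on `G` and the image of `a` -/
def hom {H : Type*} [Group H] (f : PresentedGroup R →* H) (a : H) :
    PresentedGroup (ext R) →* H :=
  PresentedGroup.toGroup (rels := ext R)
    (f := fun i => Fin.lastCases (motive := fun _ => H) a (fun i => f (PresentedGroup.of i)) i)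
    (by
      rintro _ ⟨x, hx, rfl⟩
      rw [lift_comp_map]
      simp only [Fin.lastCases_castSucc]
      have h : FreeGroup.lift (fun i => f (PresentedGroup.of i)) =
          f.comp (PresentedGroup.mk R) := by
        apply FreeGroup.ext_hom
        intro i
        simp [PresentedGroup.of]
      rw [h, MonoidHom.comp_apply,
        (PresentedGroup.mk_eq_one_iff.2 (Subgroup.subset_normalClosure hx)), _root_.map_one])

theorem hom_castSucc {H : Type*} [Group H] (f : PresentedGroup R →* H) (a : H) (i : Fin n) :
    hom R f a (PresentedGroup.of (Fin.castSucc i)) = f (PresentedGroup.of i) := by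
  rw [hom, PresentedGroup.toGroup.of, Fin.lastCases_castSucc]

theorem hom_last {H : Type*} [Group H] (f : PresentedGroup R →* H) (a : H) :
    hom R f a (PresentedGroup.of (Fin.last n)) = a := by
  rw [hom, PresentedGroup.toGroup.of, Fin.lastCases_last]

/-- the inclusion `G → G * ⟨a⟩` -/
def inc : PresentedGroup R →* PresentedGroup (ext R) :=
  PresentedGroup.toGroup (rels := R)
    (f := fun i => (PresentedGroup.of (Fin.castSucc i) : PresentedGroup (ext R)))
    (by
      intro x hx
      rw [← lift_comp_map (fun i => (PresentedGroup.of i : PresentedGroup (ext R)))]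
      rw [lift_of_mk]
      exact PresentedGroup.mk_eq_one_iff.2 (Subgroup.subset_normalClosure ⟨x, hx, rfl⟩))

theorem inc_of (i : Fin n) :
    inc R (PresentedGroup.of i) = PresentedGroup.of (Fin.castSucc i) := by
  rw [inc, PresentedGroup.toGroup.of]

/-- the retraction `G * ⟨a⟩ → G` with `a ↦ 1` -/
noncomputable def ret : PresentedGroup (ext R) →* PresentedGroup R := hom R (MonoidHom.id _) 1

end maps

section affine

variable {G : Type*} [Group G]

/-- translations of functions on a group -/
def trans : G →* Equiv.Perm (G → ℤ) where
  toFun g :=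
    { toFun := fun f y => f (g⁻¹ * y)
      invFun := fun f y => f (g * y)
      left_inv := fun f => by ext y; simp
      right_inv := fun f => by ext y; simp }
  map_one' := by ext f y; simp
  map_mul' g h := by ext f y; simp [mul_assoc]

theorem trans_apply (g : G) (f : G → ℤ) (y : G) : trans g f y = f (g⁻¹ * y) := rfl

open Classical in
/-- the function with value `1` at `g` and `0` elsewhere -/
noncomputable def delta (g : G) : G → ℤ := fun y => if y = g then 1 else 0

theorem trans_delta (g h : G) : trans g (delta h) = delta (g * h) := by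
  ext y
  simp only [trans_apply, delta]
  congr 1
  exact propext ⟨fun e => by rw [← e]; group, fun e => by rw [e]; group⟩

/-- adding `delta 1` -/
noncomputable def shift : Equiv.Perm (G → ℤ) := Equiv.addRight (delta 1)

end affine

section main

variable {n : ℕ} (R : Set (FreeGroup (Fin n)))

/-- the affine action of `G * ⟨a⟩` on `G → ℤ` -/
noncomputable def act : PresentedGroup (ext R) →* Equiv.Perm (PresentedGroup R → ℤ) :=
  hom R trans shift

theorem act_add (w : PresentedGroup (ext R)) :
    ∀ f h : PresentedGroup R → ℤ, act R w (f + h) = act R w f + trans (ret R w) h := by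
  have hw : w ∈ Subgroup.closure
      (Set.range (PresentedGroup.of : Fin (n + 1) → PresentedGroup (ext R))) := by
    rw [PresentedGroup.closure_range_of]; trivial
  induction hw using Subgroup.closure_induction with
  | mem x hx =>
    obtain ⟨i, rfl⟩ := hx
    intro f h
    induction i using Fin.lastCases with
    | last =>
      rw [act, ret, hom_last, hom_last, map_one]
      change f + h + delta 1 = f + delta 1 + h
      abel
    | cast i =>
      rw [act, ret, hom_castSucc, hom_castSucc]
      rfl
  | one => intro f h; rw [map_one, map_one, map_one]; rfl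
  | mul x y _ _ hx hy =>
    intro f h
    rw [map_mul, map_mul, map_mul, Equiv.Perm.mul_apply, Equiv.Perm.mul_apply,
      Equiv.Perm.mul_apply, hy, hx]
  | inv x _ hx =>
    intro f h
    apply (act R x).injective
    rw [map_inv, map_inv, map_inv, hx]
    simp

theorem act_conj (u : PresentedGroup (ext R)) (f : PresentedGroup R → ℤ) :
    act R (u * PresentedGroup.of (Fin.last n) * u⁻¹) f = f + delta (ret R u) := by
  have h1 : act R (PresentedGroup.of (Fin.last n)) (act R u⁻¹ f) = act R u⁻¹ f + delta 1 := by
    rw [act, hom_last]; rfl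
  rw [map_mul, map_mul, Equiv.Perm.mul_apply, Equiv.Perm.mul_apply, h1, act_add, trans_delta,
    mul_one, map_inv]
  simp

theorem act_prod {α : Type*} (u : α → PresentedGroup (ext R)) (l : List α)
    (f : PresentedGroup R → ℤ) :
    act R (l.map fun w => u w * PresentedGroup.of (Fin.last n) * (u w)⁻¹).prod f =
      f + (l.map fun w => delta (ret R (u w))).sum := by
  induction l with
  | nil => simp
  | cons w l ih =>
    rw [List.map_cons, List.prod_cons, map_mul, Equiv.Perm.mul_apply, ih, act_conj, List.map_cons,
      List.sum_cons]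
    abel

/-- If `u_1 a u_1⁻¹ ⋯ u_k a u_k⁻¹ = a ^ k` in `G * ⟨a⟩`, then the retraction `G * ⟨a⟩ → G` with
`a ↦ 1` maps all `u_i` to `1`. -/
theorem key {α : Type*} (u : α → PresentedGroup (ext R)) (l : List α)
    (h : (l.map fun w => u w * PresentedGroup.of (Fin.last n) * (u w)⁻¹).prod =
      PresentedGroup.of (Fin.last n) ^ l.length) :
    ∀ w ∈ l, ret R (u w) = 1 := by
  classical
  have h1 := act_prod R u l 0
  have h2 := act_prod R (fun _ => (1 : PresentedGroup (ext R))) l 0
  have h3 : (l.map fun _ => (1 : PresentedGroup (ext R)) * PresentedGroup.of (Fin.last n) *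
      (1 : PresentedGroup (ext R))⁻¹).prod = PresentedGroup.of (Fin.last n) ^ l.length := by
    simp [List.map_const']
  rw [h3, ← h, h1, zero_add, zero_add] at h2
  have h4 := congrFun h2 1
  have h5 : ∀ (v : α → PresentedGroup R), ((l.map fun w => delta (v w)).sum : _ → ℤ) 1 =
      ((l.countP fun w => decide (v w = 1) : ℕ) : ℤ) := by
    intro v
    clear h h1 h2 h3 h4
    induction l with
    | nil => simp
    | cons w l ih =>
      rw [List.map_cons, List.sum_cons, Pi.add_apply, ih, List.countP_cons]
      simp only [delta]
      by_cases hv : v w = 1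
      · rw [if_pos hv.symm]
        simp [hv, add_comm]
      · rw [if_neg (fun e => hv e.symm)]
        simp [hv]
  rw [h5, h5] at h4
  have h6 : (l.countP fun w => decide (ret R (u w) = 1)) = l.length := by
    have : (l.countP fun _ : α => decide (ret R (1 : PresentedGroup (ext R)) = 1)) = l.length := by
      simp
    rw [← this]
    exact_mod_cast h4
  have h7 := (List.countP_eq_length).1 h6
  intro w hw
  simpa using h7 w hw

/-- the value of a lifted word -/
theorem value_map {m : ℕ} (h : Fin m → PresentedGroup (ext R)) (w : Wd n m) :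
    ret R (value (ext R) h (w.map lft)) = value R (fun j => ret R (h j)) w := by
  rw [value, value]
  have e : FreeGroup.mk (w.map lft) =
      FreeGroup.map (Sum.map Fin.castSucc id) (FreeGroup.mk w) := by
    rw [FreeGroup.map.mk]; rfl
  rw [e]
  have h2 : ((ret R).comp (FreeGroup.lift (Sum.elim (fun i => PresentedGroup.of i) h))).comp
      (FreeGroup.map (Sum.map Fin.castSucc id)) =
      FreeGroup.lift (Sum.elim (fun i => (PresentedGroup.of i : PresentedGroup R))
        (fun j => ret R (h j))) := by
    apply FreeGroup.ext_hom
    rintro (i | j)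
    · simp [ret, hom_castSucc]
    · simp
  exact DFunLike.congr_fun h2 (FreeGroup.mk w)

theorem value_inc {m : ℕ} (g : Fin m → PresentedGroup R) (w : Wd n m) :
    value (ext R) (fun j => inc R (g j)) (w.map lft) = inc R (value R g w) := by
  rw [value, value]
  have e : FreeGroup.mk (w.map lft) =
      FreeGroup.map (Sum.map Fin.castSucc id) (FreeGroup.mk w) := by
    rw [FreeGroup.map.mk]; rfl
  rw [e]
  have h2 : (FreeGroup.lift (Sum.elim (fun i => (PresentedGroup.of i : PresentedGroup (ext R)))
      (fun j => inc R (g j)))).comp (FreeGroup.map (Sum.map Fin.castSucc id)) =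
      (inc R).comp (FreeGroup.lift (Sum.elim (fun i => (PresentedGroup.of i : PresentedGroup R))
        g)) := by
    apply FreeGroup.ext_hom
    rintro (i | j)
    · simp [inc_of]
    · simp
  exact DFunLike.congr_fun h2 (FreeGroup.mk w)

/-- A system of equations over `G` is solvable in `G` if and only if the equation `red l` is
solvable in `G * ⟨a⟩`. -/
theorem sat_iff {m : ℕ} (l : List (Wd n m)) :
    (∃ g : Fin m → PresentedGroup R, ∀ w ∈ l, value R g w = 1) ↔
      ∃ h : Fin m → PresentedGroup (ext R), value (ext R) h (red l) = 1 := by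
  constructor
  · rintro ⟨g, hg⟩
    refine ⟨fun j => inc R (g j), ?_⟩
    rw [value, lift_red]
    have : (l.map fun w => FreeGroup.lift (Sum.elim
        (fun i => (PresentedGroup.of i : PresentedGroup (ext R))) (fun j => inc R (g j)))
          (FreeGroup.mk (w.map lft)) *
        Sum.elim (fun i => (PresentedGroup.of i : PresentedGroup (ext R)))
          (fun j => inc R (g j)) (Sum.inl (Fin.last n)) *
        (FreeGroup.lift (Sum.elim (fun i => (PresentedGroup.of i : PresentedGroup (ext R)))
          (fun j => inc R (g j))) (FreeGroup.mk (w.map lft)))⁻¹) =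
        l.map fun _ => (PresentedGroup.of (Fin.last n) : PresentedGroup (ext R)) := by
      apply List.map_congr_left
      intro w hw
      have := value_inc R g w
      rw [value] at this
      rw [this, hg w hw]
      simp
    rw [this, List.map_const', List.prod_replicate]
    simp
  · rintro ⟨h, hh⟩
    refine ⟨fun j => ret R (h j), fun w hw => ?_⟩
    rw [← value_map]
    rw [value, lift_red, mul_inv_eq_one] at hh
    exact key R (fun w : Wd n m => value (ext R) h (List.map lft w)) l hh w hw

end main

end Pool.Agent.R387.OV
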